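import Mathlib

/-! Package F (ivt). -/

set_option autoImplicit false

namespace Pool.Agent.H16En

open Real Finset

/-- The two angles of the pyramid. -/
noncomputable def thb (n : ℕ) (t : ℝ) : ℝ := arccos (1 / √(n * (1 + 2 * (n - 1) * (t - 1 / 2))))
noncomputable def thl (n : ℕ) (t : ℝ) : ℝ := arccos ((t - 1 / 2) / (1 / 2 + (n - 1) * (t - 1 / 2)))

/-- The Einstein vector on old edges, up to the factor `kap`. -/
noncomputable def fa (n s d : ℕ) (t : ℝ) : ℝ :=
  (s - (n - 1).choose 2 * d * thb n t / π) * √(n - 1 : ℝ) / (n - 1) +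
    d * (n - 1).choose 3 * (1 - 3 * thl n t / (2 * π)) * √(1 + 2 * (n - 2) * (t - 1 / 2)) *
      ((t - 1 / 2) / (1 / 2 + (n - 2) * (t - 1 / 2)))
/-- The Einstein vector on new edges, up to the factor `kap`. -/
noncomputable def fb (n : ℕ) (t : ℝ) : ℝ :=
  n.choose 3 * (1 - 3 * thl n t / (2 * π)) * √(1 + 2 * (n - 2) * (t - 1 / 2)) *
      (1 / (2 * (1 / 2 + (n - 2) * (t - 1 / 2))))

/-- F: the equation. -/
theorem ivt {n s d : ℕ} (hn : 4 ≤ n) (hs : 0 < s) (hsd : 3 * s ≤ (n - 1).choose 2 * d) :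
    ∃ t : ℝ, (n - 1 : ℝ) / (2 * n) < t ∧ t < 1 / 2 ∧ fb n t = t * fa n s d t := by
  have hn4 : (4 : ℝ) ≤ n := by exact_mod_cast hn
  have hn0 : (0 : ℝ) < n := by linarith
  have hab : ((n : ℝ) - 1) / (2 * n) ≤ 1 / 2 := by
    rw [div_le_div_iff₀ (by positivity) (by norm_num)]
    nlinarith
  set a : ℝ := ((n : ℝ) - 1) / (2 * n) with ha
  have hac : a - 1 / 2 = - 1 / (2 * n) := by
    rw [ha]
    field_simp
    ring
  have hlow : ∀ t, a ≤ t → - 1 / (2 * n) ≤ t - 1 / 2 := by
    intro t ht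
    rw [← hac]
    linarith
  have hnc : ∀ t, a ≤ t → -(1 / 2) ≤ n * (t - 1 / 2) := by
    intro t ht
    have h1 := mul_le_mul_of_nonneg_left (hlow t ht) hn0.le
    have h2 : (n : ℝ) * (- 1 / (2 * n)) = -(1 / 2) := by
      field_simp
    linarith
  have hpos1 : ∀ t, a ≤ t → t ≤ 1 / 2 → 0 < 1 / 2 + ((n : ℝ) - 1) * (t - 1 / 2) := by
    intro t ht ht2
    have h1 := hnc t ht
    have h3 : (n - 1 : ℝ) * (t - 1 / 2) = (n * (t - 1 / 2)) * ((n - 1) / n) := by
      field_simp
    have h4 : (0 : ℝ) < (n - 1) / n := div_pos (by linarith) hn0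
    have h5 : ((n : ℝ) - 1) / n < 1 := by
      rw [div_lt_one hn0]
      linarith
    rw [h3]
    nlinarith
  have hpos2 : ∀ t, a ≤ t → t ≤ 1 / 2 → 0 < 1 / 2 + ((n : ℝ) - 2) * (t - 1 / 2) := by
    intro t ht ht2
    have := hpos1 t ht ht2
    nlinarith
  have hcont_b : ContinuousOn (thb n) (Set.Icc a (1 / 2)) := by
    unfold thb
    refine continuous_arccos.comp_continuousOn ?_
    refine ContinuousOn.div continuousOn_const ?_ ?_
    · exact (Continuous.sqrt (by fun_prop)).continuousOn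
    · intro t ht
      have := hpos1 t ht.1 ht.2
      have h6 : (0 : ℝ) < n * (1 + 2 * (n - 1) * (t - 1 / 2)) := by
        apply mul_pos hn0
        linarith
      exact (Real.sqrt_pos.2 h6).ne'
  have hcont_l : ContinuousOn (thl n) (Set.Icc a (1 / 2)) := by
    unfold thl
    refine continuous_arccos.comp_continuousOn ?_
    refine ContinuousOn.div (by fun_prop) (by fun_prop) ?_
    intro t ht
    exact (hpos1 t ht.1 ht.2).ne'
  have hcs : ContinuousOn (fun t : ℝ => √(1 + 2 * ((n : ℝ) - 2) * (t - 1 / 2)))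
      (Set.Icc a (1 / 2)) := (Continuous.sqrt (by fun_prop)).continuousOn
  have hcfb : ContinuousOn (fb n) (Set.Icc a (1 / 2)) := by
    unfold fb
    refine ContinuousOn.mul (ContinuousOn.mul (ContinuousOn.mul continuousOn_const ?_) hcs) ?_
    · exact continuousOn_const.sub ((continuousOn_const.mul hcont_l).div_const _)
    · refine ContinuousOn.div continuousOn_const (by fun_prop) ?_
      intro t ht
      have := hpos2 t ht.1 ht.2
      positivity
  have hcfa : ContinuousOn (fa n s d) (Set.Icc a (1 / 2)) := by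
    unfold fa
    refine ContinuousOn.add ?_ ?_
    · refine ContinuousOn.div_const (ContinuousOn.mul ?_ continuousOn_const) _
      exact continuousOn_const.sub ((continuousOn_const.mul hcont_b).div_const _)
    · refine ContinuousOn.mul (ContinuousOn.mul (ContinuousOn.mul continuousOn_const ?_) hcs) ?_
      · exact continuousOn_const.sub ((continuousOn_const.mul hcont_l).div_const _)
      · refine ContinuousOn.div (by fun_prop) (by fun_prop) ?_
        intro t ht
        exact (hpos2 t ht.1 ht.2).ne'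
  have hcg : ContinuousOn (fun t => fb n t - t * fa n s d t) (Set.Icc a (1 / 2)) :=
    hcfb.sub (continuousOn_id.mul hcfa)
  -- the left end
  have ha0 : 0 < a := by
    rw [ha]
    apply div_pos <;> linarith
  have hb_a : thb n a = 0 := by
    unfold thb
    rw [hac]
    have : (n : ℝ) * (1 + 2 * (n - 1) * (-1 / (2 * n))) = 1 := by
      field_simp
      ring
    rw [this]
    simp
  have hl_a : thl n a = π := by
    unfold thl
    rw [hac]
    have : (-1 / (2 * (n : ℝ))) / (1 / 2 + (n - 1) * (-1 / (2 * n))) = -1 := by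
      have h7 : (1 : ℝ) / 2 + (n - 1) * (-1 / (2 * n)) = 1 / (2 * n) := by
        field_simp
        ring
      rw [h7]
      field_simp
    rw [this]
    simp
  have hch3 : (0 : ℝ) < n.choose 3 := by
    exact_mod_cast Nat.choose_pos (by omega)
  have hπ : (1 : ℝ) - 3 * π / (2 * π) = - (1 / 2) := by
    field_simp
    ring
  have hfb_a : fb n a < 0 := by
    unfold fb
    rw [hl_a, hπ]
    have h8 := hpos2 a le_rfl hab
    have h9 : 0 < √(1 + 2 * ((n : ℝ) - 2) * (a - 1 / 2)) := Real.sqrt_pos.2 (by linarith)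
    have h10 : 0 < 1 / (2 * (1 / 2 + ((n : ℝ) - 2) * (a - 1 / 2))) := by positivity
    have h11 : 0 < (n.choose 3 : ℝ) * √(1 + 2 * ((n : ℝ) - 2) * (a - 1 / 2)) *
      (1 / (2 * (1 / 2 + ((n : ℝ) - 2) * (a - 1 / 2)))) := by positivity
    nlinarith
  have hsq : 0 < √(n - 1 : ℝ) / (n - 1) := by
    have h12 : (0 : ℝ) < n - 1 := by linarith
    exact div_pos (Real.sqrt_pos.2 h12) h12
  have hfa_a : 0 < fa n s d a := by
    unfold fa
    rw [hl_a, hπ, hb_a]
    have hs' : (0 : ℝ) < s := by exact_mod_cast hs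
    have h13 : 0 < ((s : ℝ) - (n - 1).choose 2 * d * 0 / π) * √(n - 1 : ℝ) / (n - 1) := by
      have : ((s : ℝ) - (n - 1).choose 2 * d * 0 / π) * √(n - 1 : ℝ) / (n - 1) =
        s * (√(n - 1 : ℝ) / (n - 1)) := by ring
      rw [this]
      exact mul_pos hs' hsq
    have h8 := hpos2 a le_rfl hab
    have h14 : 0 ≤ (d : ℝ) * (n - 1).choose 3 * -(1 / 2) *
        √(1 + 2 * ((n : ℝ) - 2) * (a - 1 / 2)) *
        ((a - 1 / 2) / (1 / 2 + ((n : ℝ) - 2) * (a - 1 / 2))) := by
      have h15 : (a - 1 / 2) / (1 / 2 + ((n : ℝ) - 2) * (a - 1 / 2)) ≤ 0 :=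
        div_nonpos_of_nonpos_of_nonneg (by linarith) h8.le
      have h16 : (d : ℝ) * (n - 1).choose 3 * -(1 / 2) *
        √(1 + 2 * ((n : ℝ) - 2) * (a - 1 / 2)) ≤ 0 := by
        have : 0 ≤ (d : ℝ) * (n - 1).choose 3 * √(1 + 2 * ((n : ℝ) - 2) * (a - 1 / 2)) := by
          positivity
        nlinarith
      exact mul_nonneg_of_nonpos_of_nonpos h16 h15
    linarith
  have hga : fb n a - a * fa n s d a < 0 := by
    have := mul_pos ha0 hfa_a
    linarith
  -- the right end
  have hl_b : thl n (1 / 2) = π / 2 := by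
    unfold thl
    simp
  have hfb_b : 0 < fb n (1 / 2) := by
    unfold fb
    rw [hl_b]
    have : (1 : ℝ) - 3 * (π / 2) / (2 * π) = 1 / 4 := by
      field_simp
      ring
    rw [this]
    simp only [sub_self, mul_zero, add_zero, Real.sqrt_one, mul_one]
    positivity
  have hb_b : π / 3 ≤ thb n (1 / 2) := by
    unfold thb
    have h30 : π / 3 = arccos (1 / 2) := by
      rw [← Real.cos_pi_div_three, Real.arccos_cos (by positivity) (by linarith [Real.pi_pos])]
    rw [h30]
    apply Real.antitone_arccos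
    have h17 : (2 : ℝ) ≤ √(n * (1 + 2 * (n - 1) * (1 / 2 - 1 / 2))) := by
      apply Real.le_sqrt_of_sq_le
      nlinarith
    rw [div_le_div_iff₀ (by linarith) (by norm_num)]
    linarith
  have hfa_b : fa n s d (1 / 2) ≤ 0 := by
    unfold fa
    have h18 : ((1 : ℝ) / 2 - 1 / 2) / (1 / 2 + ((n : ℝ) - 2) * (1 / 2 - 1 / 2)) = 0 := by
      simp
    rw [h18, mul_zero, add_zero]
    have h19 : (s : ℝ) - (n - 1).choose 2 * d * thb n (1 / 2) / π ≤ 0 := by
      have hsd' : (3 : ℝ) * s ≤ (n - 1).choose 2 * d := by exact_mod_cast hsd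
      have h20 : (0 : ℝ) ≤ (n - 1).choose 2 * d := by positivity
      have h21 : (n - 1).choose 2 * d * (1 / 3) ≤ (n - 1).choose 2 * d * thb n (1 / 2) / π := by
        rw [mul_div_assoc]
        apply mul_le_mul_of_nonneg_left _ h20
        rw [le_div_iff₀ Real.pi_pos]
        linarith
      linarith
    rw [mul_div_assoc]
    exact mul_nonpos_of_nonpos_of_nonneg h19 hsq.le
  have hgb : 0 < fb n (1 / 2) - 1 / 2 * fa n s d (1 / 2) := by linarith
  obtain ⟨t, ht, ht2⟩ := intermediate_value_Ioo hab hcg ⟨hga, hgb⟩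
  exact ⟨t, ht.1, ht.2, by linarith⟩

end Pool.Agent.H16En
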