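import Mathlib

/-! Package G (realise). -/

set_option autoImplicit false

namespace Pool.Agent.H16En

open Real Finset

/-- The vertices of the pyramid. -/
noncomputable def qq (n : ℕ) (lam : ℝ) : Option (Fin n) → EuclideanSpace ℝ (Fin n)
  | none => WithLp.toLp 2 (fun _ => lam)
  | some i => WithLp.toLp 2 (fun j => if i = j then (√2)⁻¹ else 0)

lemma qq_ai {n : ℕ} {lam : ℝ} (h : (n : ℝ) * lam ≠ (√2)⁻¹) : AffineIndependent ℝ (qq n lam) := by
  classical
  rw [affineIndependent_iff]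
  intro S w h1 h2
  let W : Option (Fin n) → ℝ := fun o => if o ∈ S then w o else 0
  have e1 : ∑ o, W o = 0 := by
    rw [← h1]
    simp only [W]
    rw [Finset.sum_ite_mem, Finset.univ_inter]
  have e2 : ∑ o, W o • qq n lam o = 0 := by
    rw [← h2]
    simp only [W, ite_smul, zero_smul]
    rw [Finset.sum_ite_mem, Finset.univ_inter]
  have s2 : (√2 : ℝ)⁻¹ ≠ 0 := by positivity
  have e3 : ∀ j : Fin n, W none * lam + W (some j) * (√2)⁻¹ = 0 := by
    intro j
    have h3 := congrArg (fun v : EuclideanSpace ℝ (Fin n) => v j) e2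
    rw [Fintype.sum_option] at h3
    simp only [qq, PiLp.add_apply, PiLp.smul_apply, smul_eq_mul, WithLp.ofLp_sum,
      Finset.sum_apply, mul_ite, mul_zero, PiLp.zero_apply] at h3
    simpa using h3
  have e4 : W none + ∑ j : Fin n, W (some j) = 0 := by
    rw [← Fintype.sum_option]
    exact e1
  have e5 : W none * ((n : ℝ) * lam - (√2)⁻¹) = 0 := by
    have h5 : (∑ _j : Fin n, W none * lam) + (∑ j : Fin n, W (some j)) * (√2)⁻¹ = 0 := by
      rw [Finset.sum_mul, ← Finset.sum_add_distrib]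
      exact Finset.sum_eq_zero fun j _ => e3 j
    rw [Finset.sum_const, Finset.card_univ, Fintype.card_fin, nsmul_eq_mul] at h5
    have h6 : ∑ j : Fin n, W (some j) = - W none := by linarith
    rw [h6] at h5
    linarith
  have e6 : W none = 0 := by
    rcases mul_eq_zero.1 e5 with h7 | h7
    · exact h7
    · exact absurd (sub_eq_zero.1 h7) h
  have e7 : ∀ j, W (some j) = 0 := by
    intro j
    have h8 := e3 j
    rw [e6, zero_mul, zero_add] at h8
    exact (mul_eq_zero.1 h8).resolve_right s2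
  intro o ho
  have h9 : W o = w o := by
    simp only [W]
    rw [if_pos ho]
  rw [← h9]
  cases o with
  | none => exact e6
  | some j => exact e7 j

lemma dist_sq {n : ℕ} (x y : EuclideanSpace ℝ (Fin n)) :
    Dist.dist x y ^ 2 = ∑ i, (x i - y i) ^ 2 := by
  rw [EuclideanSpace.dist_eq, Real.sq_sqrt (Finset.sum_nonneg fun _ _ => sq_nonneg _)]
  refine Finset.sum_congr rfl fun i _ => ?_
  rw [Real.dist_eq, sq_abs]

lemma dist_base {n : ℕ} {lam : ℝ} {i j : Fin n} (hij : i ≠ j) :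
    Dist.dist (qq n lam (some i)) (qq n lam (some j)) ^ 2 = 1 := by
  classical
  rw [dist_sq]
  have h1 : ∀ k : Fin n, ((qq n lam (some i)) k - (qq n lam (some j)) k) ^ 2 =
      (if i = k then (1 / 2 : ℝ) else 0) + (if j = k then (1 / 2 : ℝ) else 0) := by
    intro k
    have h2 : ((√2 : ℝ)⁻¹) ^ 2 = 1 / 2 := by
      rw [inv_pow, Real.sq_sqrt (by norm_num)]
      norm_num
    simp only [qq]
    by_cases hi : i = k
    · have hj : j ≠ k := fun h => hij (hi.trans h.symm)
      rw [if_pos hi, if_neg hj, if_pos hi, if_neg hj, sub_zero, h2, add_zero]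
    · by_cases hj : j = k
      · rw [if_neg hi, if_pos hj, if_neg hi, if_pos hj, zero_sub, neg_sq, h2, zero_add]
      · rw [if_neg hi, if_neg hj, if_neg hi, if_neg hj]
        norm_num
  rw [Finset.sum_congr rfl fun k _ => h1 k, Finset.sum_add_distrib]
  simp
  norm_num

lemma dist_apex {n : ℕ} {lam : ℝ} (i : Fin n) :
    Dist.dist (qq n lam none) (qq n lam (some i)) ^ 2 =
      n * lam ^ 2 - 2 * lam * (√2)⁻¹ + 1 / 2 := by
  classical
  rw [dist_sq]
  have h1 : ∀ k : Fin n, ((qq n lam none) k - (qq n lam (some i)) k) ^ 2 =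
      lam ^ 2 + (if i = k then (1 / 2 - 2 * lam * (√2)⁻¹ : ℝ) else 0) := by
    intro k
    have h2 : ((√2 : ℝ)⁻¹) ^ 2 = 1 / 2 := by
      rw [inv_pow, Real.sq_sqrt (by norm_num)]
      norm_num
    simp only [qq]
    by_cases hi : i = k
    · rw [if_pos hi, if_pos hi, sub_sq, h2]
      ring
    · rw [if_neg hi, if_neg hi]
      ring
  rw [Finset.sum_congr rfl fun k _ => h1 k, Finset.sum_add_distrib]
  simp
  ring

variable {V : Type} [DecidableEq V]

/-- G: realisation of the pyramid. -/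
theorem realise {z : Sym2 V → ℝ} {s : Finset V} {a : V} (ha : a ∈ s) {n : ℕ} (hm : #s = n + 1)
    (hn : 1 ≤ n) {t : ℝ} (ht : 0 < 1 / 2 + n * (t - 1 / 2))
    (h1 : ∀ x ∈ s, ∀ y ∈ s, x ≠ a → y ≠ a → x ≠ y → z s(x, y) = 1)
    (h2 : ∀ x ∈ s, x ≠ a → z s(a, x) = t) :
    ∃ p : s → EuclideanSpace ℝ (Fin n), AffineIndependent ℝ p ∧
      ∀ a b : s, a ≠ b → Dist.dist (p a) (p b) ^ 2 = z s(a.1, b.1) := by
  classical
  have hn0 : (0 : ℝ) < n := by exact_mod_cast hn
  let a' : s := ⟨a, ha⟩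
  have hc : Fintype.card {x : s // x ≠ a'} = n := by
    have h3 : Fintype.card {x : s // x ≠ a'} = Fintype.card s - 1 := by
      rw [Fintype.card_subtype_compl]
      simp
    rw [h3, Fintype.card_coe, hm]
    rfl
  let e0 : {x : s // x ≠ a'} ≃ Fin n := Fintype.equivFinOfCardEq hc
  let e : s ≃ Option (Fin n) := (Equiv.optionSubtypeNe a').symm.trans (Equiv.optionCongr e0)
  have hea : e a' = none := by
    simp [e]
  have hne : ∀ x : s, x ≠ a' → ∃ i, e x = some i := by
    intro x hx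
    rcases h : e x with _ | i
    · exact absurd (e.injective (h.trans hea.symm)) hx
    · exact ⟨i, rfl⟩
  set r : ℝ := √(1 / 2 + n * (t - 1 / 2)) with hr
  have hr0 : 0 < r := Real.sqrt_pos.2 ht
  have hr2 : r ^ 2 = 1 / 2 + n * (t - 1 / 2) := Real.sq_sqrt ht.le
  have hs2 : ((√2 : ℝ)⁻¹) ^ 2 = 1 / 2 := by
    rw [inv_pow, Real.sq_sqrt (by norm_num)]
    norm_num
  set lam : ℝ := ((√2)⁻¹ + r) / n with hlam
  have hl : (n : ℝ) * lam = (√2)⁻¹ + r := by
    rw [hlam]
    field_simp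
  have hapex : (n : ℝ) * lam ^ 2 - 2 * lam * (√2)⁻¹ + 1 / 2 = t := by
    have h5 : (n : ℝ) * ((n : ℝ) * lam ^ 2 - 2 * lam * (√2)⁻¹ + 1 / 2) = n * t := by
      have h6 : (n : ℝ) * ((n : ℝ) * lam ^ 2 - 2 * lam * (√2)⁻¹ + 1 / 2) =
          (n * lam) ^ 2 - 2 * (n * lam) * (√2)⁻¹ + n / 2 := by ring
      rw [h6, hl]
      have h7 : ((√2 : ℝ)⁻¹ + r) ^ 2 - 2 * ((√2)⁻¹ + r) * (√2)⁻¹ + n / 2 =
          r ^ 2 - ((√2)⁻¹) ^ 2 + n / 2 := by ring
      rw [h7, hr2, hs2]
      ring
    exact mul_left_cancel₀ hn0.ne' h5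
  refine ⟨fun x => qq n lam (e x), ?_, ?_⟩
  · exact (qq_ai (by rw [hl]; linarith)).comp_embedding e.toEmbedding
  · intro x y hxy
    by_cases hx : x = a'
    · have hy : y ≠ a' := fun h => hxy (hx.trans h.symm)
      obtain ⟨i, hi⟩ := hne y hy
      simp only
      rw [hi, hx, hea, dist_apex, hapex]
      exact (h2 y.1 y.2 (fun h => hy (Subtype.ext h))).symm
    · obtain ⟨i, hi⟩ := hne x hx
      by_cases hy : y = a'
      · simp only
        rw [hi, hy, hea, dist_comm, dist_apex, hapex, Sym2.eq_swap]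
        exact (h2 x.1 x.2 (fun h => hx (Subtype.ext h))).symm
      · obtain ⟨j, hj⟩ := hne y hy
        simp only
        rw [hi, hj, dist_base]
        · exact (h1 x.1 x.2 y.1 y.2 (fun h => hx (Subtype.ext h))
            (fun h => hy (Subtype.ext h)) (fun h => hxy (Subtype.ext h))).symm
        · intro hij
          exact hxy (e.injective (hi.trans (by rw [hij, hj])))

end Pool.Agent.H16En
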