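import Mathlib

/-! R2: dual systems. -/

set_option autoImplicit false

namespace Pool.Agent.H16En

open Real Finset RealInnerProductSpace

variable {n : ℕ}

/-- `g`, `c` are the gradients and constants of the barycentric coordinates of `p`. -/
structure Dual {ι : Type} [Fintype ι] [DecidableEq ι] (p g : ι → EuclideanSpace ℝ (Fin n))
    (c : ι → ℝ) : Prop where
  coord : ∀ k i, c k + ⟪g k, p i⟫ = if k = i then 1 else 0
  sumg : ∑ k, g k = 0
  sumc : ∑ k, c k = 1
  span : ∀ v, ∑ l, ⟪g l, v⟫ • p l = v
  rep : ∀ x, ∑ l, (c l + ⟪g l, x⟫) • p l = x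

theorem exists_dual {ι : Type} [Fintype ι] [DecidableEq ι] (hs : Fintype.card ι = n + 1)
    (p : ι → EuclideanSpace ℝ (Fin n)) (hp : AffineIndependent ℝ p) :
    ∃ (g : ι → EuclideanSpace ℝ (Fin n)) (c : ι → ℝ), Dual p g c := by
  classical
  have htop : affineSpan ℝ (Set.range p) = ⊤ := by
    rw [hp.affineSpan_eq_top_iff_card_eq_finrank_add_one]
    simp [hs]
  let b : AffineBasis ι ℝ (EuclideanSpace ℝ (Fin n)) := ⟨p, hp, htop⟩
  have hb : ∀ i, b i = p i := fun i => rfl
  let g : ι → EuclideanSpace ℝ (Fin n) := fun k =>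
    (InnerProductSpace.toDual ℝ _).symm (LinearMap.toContinuousLinearMap (b.coord k).linear)
  have hg : ∀ k v, ⟪g k, v⟫ = (b.coord k).linear v := by
    intro k v
    simp only [g, InnerProductSpace.toDual_symm_apply]
    rfl
  let c : ι → ℝ := fun k => b.coord k 0
  have hcg : ∀ k x, c k + ⟪g k, x⟫ = b.coord k x := by
    intro k x
    rw [hg]
    have h1 := (b.coord k).map_vadd 0 x
    simp only [vadd_eq_add, add_zero] at h1
    rw [h1]
    simp only [c]
    ring
  have hcoord : ∀ k i, c k + ⟪g k, p i⟫ = if k = i then 1 else 0 := by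
    intro k i
    rw [hcg, ← hb, b.coord_apply]
  have hrep : ∀ x, ∑ l, (c l + ⟪g l, x⟫) • p l = x := by
    intro x
    simp only [hcg]
    exact b.linear_combination_coord_eq_self x
  have hsum : ∀ x, ∑ l, (c l + ⟪g l, x⟫) = 1 := by
    intro x
    simp only [hcg]
    exact b.sum_coord_apply_eq_one x
  have hsc : ∑ k, c k = 1 := by
    have := hsum 0
    simpa using this
  refine ⟨g, c, hcoord, ?_, hsc, ?_, hrep⟩
  · refine ext_inner_right ℝ fun x => ?_
    have h1 := hsum x
    rw [Finset.sum_add_distrib, hsc] at h1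
    rw [sum_inner, inner_zero_left]
    linarith
  · intro v
    have h1 := hrep v
    have h2 := hrep 0
    simp only [add_smul, Finset.sum_add_distrib, inner_zero_right, zero_smul,
      Finset.sum_const_zero, add_zero] at h1 h2
    rw [h2, zero_add] at h1
    exact h1

end Pool.Agent.H16En
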