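import Pool.Agent.H50En.Defs
import Pool.Agent.H16En.R2

/-! R2 on finsets, and R1. -/

set_option autoImplicit false

namespace Pool.Agent.H16En

open Real Finset RealInnerProductSpace Pool.Agent.H50En

variable {n : ℕ} {V : Type} [DecidableEq V]

/-- `g`, `c` are the gradients and constants of the barycentric coordinates of `p` on `s`. -/
structure DualOn (s : Finset V) (p g : V → EuclideanSpace ℝ (Fin n)) (c : V → ℝ) : Prop where
  coord : ∀ k ∈ s, ∀ i ∈ s, c k + ⟪g k, p i⟫ = if k = i then 1 else 0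
  sumg : ∑ k ∈ s, g k = 0
  sumc : ∑ k ∈ s, c k = 1
  rep : ∀ x, ∑ l ∈ s, (c l + ⟪g l, x⟫) • p l = x

theorem exists_dualOn {s : Finset V} (hs : #s = n + 1) (q : s → EuclideanSpace ℝ (Fin n))
    (hq : AffineIndependent ℝ q) :
    ∃ (p g : V → EuclideanSpace ℝ (Fin n)) (c : V → ℝ), (∀ x : s, p x = q x) ∧
      DualOn s p g c := by
  classical
  obtain ⟨g, c, h⟩ := exists_dual (by rw [Fintype.card_coe, hs]) q hq
  refine ⟨fun x => if hx : x ∈ s then q ⟨x, hx⟩ else 0, fun x => if hx : x ∈ s then g ⟨x, hx⟩ else 0,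
    fun x => if hx : x ∈ s then c ⟨x, hx⟩ else 0, fun x => dif_pos x.2, ?_⟩
  refine ⟨?_, ?_, ?_, ?_⟩
  · intro k hk i hi
    rw [dif_pos hk, dif_pos hk, dif_pos hi, h.coord]
    simp
  · rw [← Finset.sum_coe_sort]
    rw [← h.sumg]
    refine Finset.sum_congr rfl fun x _ => ?_
    rw [dif_pos x.2]
  · rw [← Finset.sum_coe_sort]
    rw [← h.sumc]
    refine Finset.sum_congr rfl fun x _ => ?_
    rw [dif_pos x.2]
  · intro x
    rw [← Finset.sum_coe_sort]
    conv_rhs => rw [← h.rep x]
    refine Finset.sum_congr rfl fun y _ => ?_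
    rw [dif_pos y.2, dif_pos y.2, dif_pos y.2]

/-- The points of a dual system are affinely independent. -/
theorem DualOn.ai {s : Finset V} {p g : V → EuclideanSpace ℝ (Fin n)} {c : V → ℝ}
    (h : DualOn s p g c) : AffineIndependent ℝ (fun x : s => p x) := by
  classical
  rw [affineIndependent_iff]
  intro S w h1 h2 k hk
  have h3 : ∑ e ∈ S, w e * (c k + ⟪g k, p e⟫) = 0 := by
    have h4 : ∑ e ∈ S, w e * (c k + ⟪g k, p e⟫) = c k * ∑ e ∈ S, w e + ⟪g k, ∑ e ∈ S, w e • p e⟫ := by
      rw [inner_sum, Finset.mul_sum, ← Finset.sum_add_distrib]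
      refine Finset.sum_congr rfl fun e _ => ?_
      rw [inner_smul_right]
      ring
    rw [h4, h1, h2]
    simp
  rw [Finset.sum_eq_single k] at h3
  · rw [h.coord k k.2 k k.2, if_pos rfl, mul_one] at h3
    exact h3
  · intro e _ hek
    rw [h.coord k k.2 e e.2, if_neg (fun h5 => hek (Subtype.ext h5.symm)), mul_zero]
  · intro h5
    exact absurd hk h5

/-- R1: the inverse of the Cayley–Menger matrix is minus half the Gram matrix of the gradients. -/
theorem DualOn.gram {s : Finset V} {p g : V → EuclideanSpace ℝ (Fin n)} {c : V → ℝ}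
    (h : DualOn s p g c) {z : Sym2 V → ℝ}
    (hz : ∀ a ∈ s, ∀ b ∈ s, a ≠ b → z s(a, b) = Dist.dist (p a) (p b) ^ 2) :
    (CM z s).det ≠ 0 ∧ ∀ k ∈ s, ∀ l ∈ s, Q z s k l = -(1 / 2) * ⟪g k, g l⟫ := by
  classical
  have hD : ∀ i ∈ s, ∀ j ∈ s, (if i = j then (0 : ℝ) else z s(i, j)) =
      ⟪p i, p i⟫ - 2 * ⟪p i, p j⟫ + ⟪p j, p j⟫ := by
    intro i hi j hj
    split_ifs with hij
    · subst hij
      ring
    · rw [hz i hi j hj hij, dist_eq_norm, ← real_inner_self_eq_norm_sq, inner_sub_left,
        inner_sub_right, inner_sub_right, real_inner_comm (p j) (p i)]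
      ring
  have hspan : ∀ v, ∑ l ∈ s, ⟪g l, v⟫ • p l = v := by
    intro v
    have h1 := h.rep v
    have h2 := h.rep 0
    simp only [add_smul, Finset.sum_add_distrib, inner_zero_right, zero_smul,
      Finset.sum_const_zero, add_zero] at h1 h2
    rw [h2, zero_add] at h1
    exact h1
  -- the constants
  let N : V → ℝ := fun k => ⟪p k, p k⟫
  let A : EuclideanSpace ℝ (Fin n) → ℝ := fun w => ∑ k ∈ s, N k * ⟪g k, w⟫
  let r : V → ℝ := fun k => c k + 1 / 2 * A (g k)
  let D : V → V → ℝ := fun i k => N i - 2 * ⟪p i, p k⟫ + N k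
  have hc0 : ∑ l ∈ s, c l • p l = 0 := by
    have h2 := h.rep 0
    simpa using h2
  have key : ∀ i w, ∑ k ∈ s, D i k * ⟪g k, w⟫ = -2 * ⟪p i, w⟫ + A w := by
    intro i w
    have e1 : ∑ k ∈ s, ⟪g k, w⟫ = 0 := by
      rw [← sum_inner, h.sumg, inner_zero_left]
    have e2 : ∑ k ∈ s, ⟪p i, p k⟫ * ⟪g k, w⟫ = ⟪p i, w⟫ := by
      conv_rhs => rw [← hspan w]
      rw [inner_sum]
      refine Finset.sum_congr rfl fun k _ => ?_
      rw [inner_smul_right]
      ring
    have e3 : ∑ k ∈ s, D i k * ⟪g k, w⟫ = N i * ∑ k ∈ s, ⟪g k, w⟫ -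
        2 * ∑ k ∈ s, ⟪p i, p k⟫ * ⟪g k, w⟫ + A w := by
      simp only [A]
      rw [Finset.mul_sum, Finset.mul_sum, ← Finset.sum_sub_distrib, ← Finset.sum_add_distrib]
      refine Finset.sum_congr rfl fun k _ => ?_
      simp only [D]
      ring
    rw [e3, e1, e2]
    ring
  have keyc : ∀ i, ∑ k ∈ s, D i k * c k = N i + ∑ k ∈ s, N k * c k := by
    intro i
    have e2 : ∑ k ∈ s, ⟪p i, p k⟫ * c k = 0 := by
      have e4 : ⟪p i, ∑ k ∈ s, c k • p k⟫ = 0 := by
        rw [hc0, inner_zero_right]
      rw [← e4, inner_sum]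
      refine Finset.sum_congr rfl fun k _ => ?_
      rw [inner_smul_right]
      ring
    have e3 : ∑ k ∈ s, D i k * c k = N i * ∑ k ∈ s, c k -
        2 * ∑ k ∈ s, ⟪p i, p k⟫ * c k + ∑ k ∈ s, N k * c k := by
      rw [Finset.mul_sum, Finset.mul_sum, ← Finset.sum_sub_distrib, ← Finset.sum_add_distrib]
      refine Finset.sum_congr rfl fun k _ => ?_
      simp only [D]
      ring
    rw [e3, e2, h.sumc]
    ring
  have keyA : ∀ i ∈ s, ∑ k ∈ s, D i k * A (g k) =
      -2 * (N i - ∑ m ∈ s, N m * c m) + ∑ m ∈ s, N m * A (g m) := by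
    intro i hi
    have e1 : ∑ k ∈ s, D i k * A (g k) = ∑ m ∈ s, N m * ∑ k ∈ s, D i k * ⟪g k, g m⟫ := by
      simp only [A, Finset.mul_sum]
      rw [Finset.sum_comm]
      refine Finset.sum_congr rfl fun m _ => Finset.sum_congr rfl fun k _ => ?_
      rw [real_inner_comm (g k) (g m)]
      ring
    have e2 : ∑ m ∈ s, N m * ⟪p i, g m⟫ = N i - ∑ m ∈ s, N m * c m := by
      have e5 : ∑ m ∈ s, N m * (if m = i then (1 : ℝ) else 0) = N i := by
        simp [hi]
      rw [← e5, ← Finset.sum_sub_distrib]
      refine Finset.sum_congr rfl fun m hm => ?_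
      have e6 := h.coord m hm i hi
      rw [← e6, real_inner_comm (g m) (p i)]
      ring
    rw [e1]
    simp only [key]
    rw [← e2, Finset.mul_sum, ← Finset.sum_add_distrib]
    refine Finset.sum_congr rfl fun m _ => ?_
    ring
  let P : Matrix (Option s) (Option s) ℝ := Matrix.of fun a b => match a, b with
    | none, none => - ∑ m ∈ s, N m * (c m + r m)
    | none, some l => r l
    | some k, none => r k
    | some k, some l => -(1 / 2) * ⟪g k, g l⟫
  have hDz : ∀ i k : s, CM z s (some i) (some k) = D i k := by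
    intro i k
    have e7 := hD i i.2 k k.2
    simp only [CM, Matrix.of_apply]
    simp only [D, N]
    rw [← e7]
    by_cases hik : i = k
    · rw [if_pos hik, if_pos (congrArg Subtype.val hik)]
    · rw [if_neg hik, if_neg (fun h => hik (Subtype.ext h))]
  have hmul : CM z s * P = 1 := by
    ext a b
    rw [Matrix.mul_apply, Fintype.sum_option]
    rcases a with _ | i <;> rcases b with _ | l
    · -- none none
      have e8 : ∀ k : s, CM z s none (some k) * P (some k) none = r k := by
        intro k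
        simp only [CM, P, Matrix.of_apply, one_mul]
      rw [Finset.sum_congr rfl fun k _ => e8 k]
      have e9 : CM z s none none = 0 := rfl
      rw [e9, zero_mul, zero_add, Finset.sum_coe_sort s r, Matrix.one_apply_eq]
      simp only [r]
      rw [Finset.sum_add_distrib, h.sumc, ← Finset.mul_sum]
      have e10 : ∑ k ∈ s, A (g k) = 0 := by
        simp only [A]
        rw [Finset.sum_comm]
        refine Finset.sum_eq_zero fun m _ => ?_
        rw [← Finset.mul_sum, ← inner_sum, h.sumg, inner_zero_right, mul_zero]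
      rw [e10]
      ring
    · have e8 : ∀ k : s, CM z s none (some k) * P (some k) (some l) =
          -(1 / 2) * ⟪g k, g l⟫ := by
        intro k
        simp only [CM, P, Matrix.of_apply, one_mul]
      rw [Finset.sum_congr rfl fun k _ => e8 k]
      have e9 : CM z s none none = 0 := rfl
      rw [e9, zero_mul, zero_add, Finset.sum_coe_sort s (fun k => -(1 / 2) * ⟪g k, g l⟫),
        ← Finset.mul_sum, ← sum_inner, h.sumg, inner_zero_left, mul_zero]
      rfl
    · have e8 : ∀ k : s, CM z s (some i) (some k) * P (some k) none = D i k * r k := by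
        intro k
        rw [hDz]
        rfl
      rw [Finset.sum_congr rfl fun k _ => e8 k]
      have e9 : CM z s (some i) none = 1 := rfl
      have e10 : P none none = - ∑ m ∈ s, N m * (c m + r m) := rfl
      rw [e9, one_mul, e10, Finset.sum_coe_sort s (fun k => D i k * r k)]
      have e11 : ∑ k ∈ s, D i k * r k = ∑ k ∈ s, D i k * c k +
          1 / 2 * ∑ k ∈ s, D i k * A (g k) := by
        rw [Finset.mul_sum, ← Finset.sum_add_distrib]
        refine Finset.sum_congr rfl fun k _ => ?_
        simp only [r]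
        ring
      have e12 : ∑ m ∈ s, N m * (c m + r m) = 2 * ∑ m ∈ s, N m * c m +
          1 / 2 * ∑ m ∈ s, N m * A (g m) := by
        rw [Finset.mul_sum, Finset.mul_sum, ← Finset.sum_add_distrib]
        refine Finset.sum_congr rfl fun k _ => ?_
        simp only [r]
        ring
      rw [e11, e12, keyc, keyA i i.2, Matrix.one_apply_ne (by simp)]
      ring
    · have e8 : ∀ k : s, CM z s (some i) (some k) * P (some k) (some l) =
          -(1 / 2) * (D i k * ⟪g k, g l⟫) := by
        intro k
        rw [hDz]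
        simp only [P, Matrix.of_apply]
        ring
      rw [Finset.sum_congr rfl fun k _ => e8 k]
      have e9 : CM z s (some i) none = 1 := rfl
      have e10 : P none (some l) = r l := rfl
      rw [e9, one_mul, e10, Finset.sum_coe_sort s (fun k => -(1 / 2) * (D i k * ⟪g k, g l⟫)),
        ← Finset.mul_sum, key]
      have e11 := h.coord l l.2 i i.2
      rw [real_inner_comm (g l) (p i)] at *
      have e12 : (1 : Matrix (Option s) (Option s) ℝ) (some i) (some l) =
          if (l : V) = i then 1 else 0 := by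
        rw [Matrix.one_apply]
        simp only [Option.some_inj]
        by_cases hil : i = l
        · rw [if_pos hil, if_pos (congrArg Subtype.val hil.symm)]
        · rw [if_neg hil, if_neg (fun h => hil (Subtype.ext h.symm))]
      rw [e12, ← e11]
      simp only [r]
      ring
  refine ⟨Matrix.det_ne_zero_of_right_inverse hmul, ?_⟩
  intro k hk l hl
  unfold Q
  rw [dif_pos ⟨hk, hl⟩, Matrix.inv_eq_right_inv hmul]
  rfl

end Pool.Agent.H16En
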